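import Mathlib

/-! Compact sets of almost full dimension on which every coordinate is injective. -/

namespace Pool.Agent.P.MP_bf60a1_an.BF

open Set Real
open scoped ENNReal NNReal

theorem sep {b : ℕ} {x y : ℕ → Fin b} (hx : ∀ i, Even (x i).val) (hy : ∀ i, Even (y i).val)
    {n : ℕ} (h : ∀ i < n, x i = y i) (hn : x n ≠ y n) :
    ((b : ℝ) ^ (n + 1))⁻¹ ≤ |ofDigits x - ofDigits y| := by
  have hb : (0 : ℝ) < b := by exact_mod_cast Fin.pos (x 0)
  have e : ∑ i ∈ Finset.range n, ofDigitsTerm x i = ∑ i ∈ Finset.range n, ofDigitsTerm y i :=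
    Finset.sum_congr rfl fun i hi => by simp only [ofDigitsTerm, h i (Finset.mem_range.1 hi)]
  rw [ofDigits_eq_sum_add_ofDigits x (n + 1), ofDigits_eq_sum_add_ofDigits y (n + 1),
    Finset.sum_range_succ, Finset.sum_range_succ, e]
  have a1 := ofDigits_nonneg fun i => x (i + (n + 1))
  have a2 := ofDigits_le_one fun i => x (i + (n + 1))
  have a3 := ofDigits_nonneg fun i => y (i + (n + 1))
  have a4 := ofDigits_le_one fun i => y (i + (n + 1))
  have hp : 0 < ((b : ℝ) ^ (n + 1))⁻¹ := by positivity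
  simp only [ofDigitsTerm]
  obtain ⟨p, hp1⟩ := hx n
  obtain ⟨q, hq1⟩ := hy n
  have hne : p ≠ q := fun k => hn (Fin.ext (by omega))
  rw [hp1, hq1, le_abs]
  push_cast
  rcases lt_or_gt_of_ne hne with k | k
  · have : (p : ℝ) + 1 ≤ q := by exact_mod_cast k
    right; nlinarith
  · have : (q : ℝ) + 1 ≤ p := by exact_mod_cast k
    left; nlinarith

/-- a digit in base `4 M` carrying a free digit and one bit -/
def dg {M : ℕ} (t : Fin M) (q : Fin M × Fin M) : Fin (4 * M) :=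
  ⟨4 * q.1 + 2 * (if q.2 = t then 1 else 0), by have := q.1.2; split_ifs <;> omega⟩

theorem dg_even {M : ℕ} (t : Fin M) (q : Fin M × Fin M) : Even (dg t q).val := by
  refine ⟨2 * q.1 + (if q.2 = t then 1 else 0), ?_⟩
  simp only [dg]; ring

theorem dg_inj {M : ℕ} {t : Fin M} {q q' : Fin M × Fin M} (h : dg t q = dg t q') :
    q.1 = q'.1 ∧ (q.2 = t ↔ q'.2 = t) := by
  have h1 := congrArg Fin.val h
  simp only [dg] at h1
  split_ifs at h1 with a b b
  · exact ⟨Fin.ext (by omega), by simp [a, b]⟩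
  · omega
  · omega
  · exact ⟨Fin.ext (by omega), by simp [a, b]⟩

theorem cube (ι : Type) [Fintype ι] {d : ℝ≥0∞} (hd : d < Fintype.card ι) :
    ∃ E : Set (ι → ℝ), IsCompact E ∧ d < dimH E ∧
      ∀ i, ∀ y ∈ E, ∀ y' ∈ E, y i = y' i → y = y' := by
  classical
  have hc : 0 < Fintype.card ι := by exact_mod_cast (zero_le.trans_lt hd)
  have : Nonempty ι := Fintype.card_pos_iff.1 hc
  obtain ⟨γ, hγ0, hγ1, hγ⟩ : ∃ γ : ℝ≥0, 0 < γ ∧ γ < 1 ∧ d < (Fintype.card ι : ℝ≥0∞) * γ := by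
    lift d to ℝ≥0 using hd.ne_top
    have h1 : d < Fintype.card ι := by exact_mod_cast hd
    have h2 : (0 : ℝ≥0) < Fintype.card ι := by exact_mod_cast hc
    obtain ⟨γ, g1, g2⟩ := exists_between ((div_lt_one h2).2 h1)
    refine ⟨γ, zero_le.trans_lt g1, g2, ?_⟩
    rw [div_lt_iff₀' h2] at g1
    exact_mod_cast g1
  have hγ1' : (γ : ℝ) < 1 := hγ1
  obtain ⟨M, hM⟩ := exists_nat_ge ((4 : ℝ) ^ (1 - (γ : ℝ))⁻¹)
  have hγ2 : (0 : ℝ) < 1 - γ := by linarith
  have hM4 : (4 : ℝ) ≤ (M : ℝ) ^ (1 - (γ : ℝ)) := by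
    have := Real.rpow_le_rpow (by positivity) hM hγ2.le
    rwa [Real.rpow_inv_rpow (by norm_num) hγ2.ne'] at this
  have hM1 : (1 : ℝ) < M := (Real.one_lt_rpow (by norm_num) (by positivity)).trans_le hM
  have hM1' : 1 < M := by exact_mod_cast hM1
  have hM0 : (0 : ℝ) < M := by linarith
  have hMγ : ((4 * M : ℕ) : ℝ) ^ (γ : ℝ) ≤ M := by
    push_cast
    rw [Real.mul_rpow (by norm_num) hM0.le]
    calc (4 : ℝ) ^ (γ : ℝ) * (M : ℝ) ^ (γ : ℝ) ≤ (M : ℝ) ^ (1 - (γ : ℝ)) * (M : ℝ) ^ (γ : ℝ) := by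
          gcongr
          exact (Real.rpow_le_self_of_one_le (by norm_num) hγ1'.le).trans hM4
      _ = M := by rw [← Real.rpow_add hM0, sub_add_cancel, Real.rpow_one]
  have : Nonempty (Fin M) := ⟨⟨0, by omega⟩⟩
  obtain ⟨e, he⟩ := exists_surjective_nat (ι × ℕ × Fin M)
  set D : (ι → ℕ → Fin M) → ι → ℕ → Fin (4 * M) := fun a i k =>
    dg (e k).2.2 (a i k, a (e k).1 (e k).2.1) with hD
  set Φ : (ι → ℕ → Fin M) → ι → ℝ := fun a i => ofDigits (D a i) with hΦ
  have hΦc : Continuous Φ := continuous_pi fun i => continuous_ofDigits.comp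
    (continuous_pi fun k => (continuous_of_discreteTopology (f := dg (e k).2.2)).comp
      (f := fun a : ι → ℕ → Fin M => (a i k, a (e k).1 (e k).2.1)) (by fun_prop))
  have hsep : ∀ a a' i, D a i ≠ D a' i → ∃ n, (∀ k < n, a i k = a' i k) ∧
      (((4 * M : ℕ) : ℝ) ^ (n + 1))⁻¹ ≤ |Φ a i - Φ a' i| := by
    intro a a' i h
    have hex : ∃ n, D a i n ≠ D a' i n := Function.ne_iff.1 h
    have h1 : ∀ k < Nat.find hex, D a i k = D a' i k := fun k hk =>
      not_not.1 (Nat.find_min hex hk)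
    exact ⟨Nat.find hex, fun k hk => (dg_inj (h1 k hk)).1,
      sep (fun k => dg_even _ _) (fun k => dg_even _ _) h1 (Nat.find_spec hex)⟩
  have hinj : ∀ a a' i, Φ a i = Φ a' i → a = a' := by
    intro a a' i h
    have h1 : D a i = D a' i := by
      by_contra h2
      obtain ⟨n, -, h3⟩ := hsep a a' i h2
      rw [h, sub_self, abs_zero] at h3
      exact absurd h3 (not_le.2 (by positivity))
    funext j l
    obtain ⟨k, hk⟩ := he (j, l, a j l)
    have h2 := (dg_inj (congrFun h1 k)).2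
    rw [hk] at h2
    exact (h2.1 rfl).symm
  have hI : Function.Injective Φ := fun a a' h => hinj a a' (Classical.arbitrary ι) (congrFun h _)
  set ψ : (ι → ℝ) → ι → ℝ := fun y i => ofDigits (Function.invFun Φ y i) with hψ
  have hψΦ : ∀ a i, ψ (Φ a) i = ofDigits (a i) := fun a i => by
    simp only [hψ, Function.leftInverse_invFun hI a]
  have hH : HolderOnWith M γ ψ (range Φ) := by
    rintro _ ⟨a, rfl⟩ _ ⟨a', rfl⟩
    rw [edist_dist, edist_dist, ENNReal.ofReal_rpow_of_nonneg dist_nonneg γ.coe_nonneg,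
      ← ENNReal.ofReal_coe_nnreal, ← ENNReal.ofReal_mul (by positivity)]
    refine ENNReal.ofReal_le_ofReal ((dist_pi_le_iff (by positivity)).2 fun i => ?_)
    rw [hψΦ, hψΦ, Real.dist_eq]
    by_cases h : D a i = D a' i
    · rw [hinj a a' i (congrArg ofDigits h), sub_self, abs_zero]
      positivity
    obtain ⟨n, h1, h2⟩ := hsep a a' i h
    have h3 := h2.trans (dist_le_pi_dist (Φ a) (Φ a') i)
    have h4 := Real.rpow_le_rpow (by positivity) h3 γ.coe_nonneg
    rw [Real.inv_rpow (by positivity), ← Real.rpow_pow_comm (by positivity)] at h4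
    refine (abs_ofDigits_sub_ofDigits_le h1).trans ?_
    calc ((M : ℝ) ^ n)⁻¹ = M * ((M : ℝ) ^ (n + 1))⁻¹ := by rw [pow_succ]; field_simp
      _ ≤ M * ((((4 * M : ℕ) : ℝ) ^ (γ : ℝ)) ^ (n + 1))⁻¹ := by gcongr
      _ ≤ _ := mul_le_mul_of_nonneg_left h4 hM0.le
  refine ⟨range Φ, isCompact_range hΦc, ?_, ?_⟩
  · have h1 : Icc (0 : ι → ℝ) 1 ⊆ ψ '' range Φ := by
      intro y hy
      choose a _ ha using fun i => ofDigits_SurjOn hM1' (a := y i) ⟨hy.1 i, hy.2 i⟩
      exact ⟨Φ a, mem_range_self a, funext fun i => (hψΦ a i).trans (ha i)⟩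
    have h2 : dimH (Icc (0 : ι → ℝ) 1) = Fintype.card ι := by
      rw [Real.dimH_of_mem_nhds (x := fun _ => 1 / 2) (pi_Icc_mem_nhds (fun _ => by norm_num)
        fun _ => by norm_num), Module.finrank_fintype_fun_eq_card]
    have h3 := (h2.ge.trans (dimH_mono h1)).trans (hH.dimH_image_le hγ0)
    rw [ENNReal.le_div_iff_mul_le (Or.inl (by exact_mod_cast hγ0.ne')) (Or.inl ENNReal.coe_ne_top)]
      at h3
    exact hγ.trans_le h3
  · rintro i _ ⟨a, rfl⟩ _ ⟨a', rfl⟩ h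
    rw [hinj a a' i h]

end Pool.Agent.P.MP_bf60a1_an.BF
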