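import Pool.Agent.P.MP_bf60a1_an.TS.Final

/-! Coordinates for a bilinear form and images of Frostman measures under linear maps. -/

namespace Pool.Agent.P.MP_bf60a1_an.BF

open MeasureTheory Metric Set RA TS Module
open scoped ENNReal

theorem rk {M M' : Type*} [AddCommGroup M] [Module ℝ M] [AddCommGroup M'] [Module ℝ M']
    [FiniteDimensional ℝ M] (f : M →ₗ[ℝ] M') (S : Submodule ℝ M) :
    finrank ℝ (S.map f) + finrank ℝ (LinearMap.ker f ⊓ S : Submodule ℝ M) = finrank ℝ S := by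
  have h := (f.domRestrict S).finrank_range_add_finrank_ker
  rw [LinearMap.range_domRestrict, LinearMap.ker_domRestrict,
    ← Submodule.finrank_map_subtype_eq S, Submodule.map_comap_subtype, inf_comm] at h
  exact h

variable {n : ℕ}

theorem factor (B : LinearMap.BilinForm ℝ (EV n)) (V : Submodule ℝ (EV n)) :
    ∃ (u : ℕ) (P T : EV n →ₗ[ℝ] EV u), (∀ w, ∀ v ∈ V, B w v = inner ℝ (T w) (P v)) ∧
      finrank ℝ (LinearMap.ker T) + u = n ∧
      finrank ℝ (LinearMap.ker P ⊓ V : Submodule ℝ (EV n)) + u = finrank ℝ V ∧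
      finrank ℝ (V.map T) = finrank ℝ (LinearMap.range (B.restrict V)) ∧
      finrank ℝ (LinearMap.range B) + finrank ℝ V ≤ u + n := by
  set N : EV n →ₗ[ℝ] Dual ℝ V := V.dualRestrict ∘ₗ B with hN
  have : Module.Free ℝ (LinearMap.range N) := Module.Free.of_divisionRing ℝ (LinearMap.range N)
  set φ := Module.finBasis ℝ (LinearMap.range N) with hφ
  set e : LinearMap.range N ≃ₗ[ℝ] EV (finrank ℝ (LinearMap.range N)) :=
    φ.equivFun.trans (WithLp.linearEquiv 2 ℝ _).symm with he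
  set T : EV n →ₗ[ℝ] EV (finrank ℝ (LinearMap.range N)) := e.toLinearMap ∘ₗ N.rangeRestrict
    with hT
  obtain ⟨P, hP⟩ := LinearMap.exists_extend (p := V)
    ((WithLp.linearEquiv 2 ℝ _).symm.toLinearMap ∘ₗ LinearMap.pi fun i => (φ i : Dual ℝ V))
  have hPv : ∀ (v : V) i, P v i = (φ i : Dual ℝ V) v := fun v i =>
    congrArg (fun x : EV _ => x i) (LinearMap.congr_fun hP v)
  have h1 : ∀ w, ∀ v ∈ V, B w v = inner ℝ (T w) (P v) := by
    intro w v hv
    have h2 := congrArg (fun x : LinearMap.range N => (x : Dual ℝ V) ⟨v, hv⟩)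
      (φ.sum_equivFun (N.rangeRestrict w))
    simp only [Submodule.coe_sum, Submodule.coe_smul, LinearMap.sum_apply, LinearMap.smul_apply,
      smul_eq_mul] at h2
    rw [show B w v = ((N.rangeRestrict w : LinearMap.range N) : Dual ℝ V) ⟨v, hv⟩ from rfl, ← h2,
      PiLp.inner_apply]
    refine Finset.sum_congr rfl fun i _ => ?_
    rw [← hPv ⟨v, hv⟩ i]
    simp [hT, he, mul_comm]
  have hs : Function.Surjective T := e.surjective.comp N.surjective_rangeRestrict
  have hk : LinearMap.ker T = LinearMap.ker N := by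
    rw [hT, LinearEquiv.ker_comp, LinearMap.ker_rangeRestrict]
  have h3 : V.map P = ⊤ := by
    rw [← Submodule.orthogonal_eq_bot_iff, eq_bot_iff]
    intro y hy
    obtain ⟨w, rfl⟩ := hs y
    rw [Submodule.mem_bot, ← LinearMap.mem_ker, hk, LinearMap.mem_ker]
    ext v
    exact (h1 w v v.2).trans
      (Submodule.inner_left_of_mem_orthogonal (Submodule.mem_map_of_mem v.2) hy)
  refine ⟨_, P, T, h1, ?_, ?_, ?_, ?_⟩
  · have := N.finrank_range_add_finrank_ker
    rw [finrank_euclideanSpace_fin] at this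
    rw [hk]; omega
  · have := rk P V
    rw [h3, finrank_top, finrank_euclideanSpace_fin] at this
    omega
  · have a := rk T V
    have b := rk N V
    have c : V.map N = LinearMap.range (B.restrict V) := by
      rw [← LinearMap.range_domRestrict]; rfl
    rw [hk] at a
    rw [c] at b
    exact Nat.add_right_cancel (a.trans b.symm)
  · have a := rk V.dualRestrict (LinearMap.range B)
    rw [← LinearMap.range_comp, ← hN, Submodule.dualRestrict_ker_eq_dualAnnihilator] at a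
    have b := Subspace.finrank_add_finrank_dualAnnihilator_eq V
    have c := Submodule.finrank_mono (inf_le_left (a := V.dualAnnihilator) (b := LinearMap.range B))
    rw [finrank_euclideanSpace_fin] at b
    refine (Nat.add_le_add_right a.ge _).trans ?_
    omega

theorem sect {u : ℕ} (D : EV n →ₗ[ℝ] EV u) (Y : Submodule ℝ (EV n)) :
    ∃ g : EV u →L[ℝ] EV n, ∀ y ∈ Y, g (D y) ∈ Y ∧ D (g (D y)) = D y := by
  obtain ⟨σ, hσ⟩ := (D.domRestrict Y).rangeRestrict.exists_rightInverse_of_surjective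
    (LinearMap.range_rangeRestrict _)
  obtain ⟨g, hg⟩ := LinearMap.exists_extend (Y.subtype ∘ₗ σ)
  refine ⟨LinearMap.toContinuousLinearMap g, fun y hy => ?_⟩
  have h1 : g (D y) = σ ⟨D y, ⟨y, hy⟩, rfl⟩ := LinearMap.congr_fun hg ⟨D y, ⟨y, hy⟩, rfl⟩
  have h2 := congrArg Subtype.val (LinearMap.congr_fun hσ ⟨D y, ⟨y, hy⟩, rfl⟩)
  change g (D y) ∈ Y ∧ D (g (D y)) = D y
  rw [h1]
  exact ⟨Subtype.property _, h2⟩

variable (μ : Measure (EV n)) [IsProbabilityMeasure μ] {K : Set (EV n)}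

theorem push (hK : IsCompact K) (hμK : μ Kᶜ = 0) (Y : Submodule ℝ (EV n))
    (hY : ∀ z ∈ K, ∀ z' ∈ K, z - z' ∈ Y) {u : ℕ} (D : EV n →ₗ[ℝ] EV u) {s s' : ℝ} (hF : Fr μ s)
    (h0 : 0 ≤ s') (h1 : s' ≤ s - finrank ℝ (LinearMap.ker D ⊓ Y : Submodule ℝ (EV n))) :
    Fr (μ.map D) s' := by
  obtain ⟨g, hg⟩ := sect D Y
  have hD := D.continuous_of_finiteDimensional
  have : IsProbabilityMeasure (μ.map D) :=
    Measure.isProbabilityMeasure_map hD.measurable.aemeasurable
  obtain ⟨C, hC, hF⟩ := hF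
  obtain ⟨ρ, hρ⟩ := (hK.prod hK).exists_bound_of_continuousOn
    (f := fun q : EV n × EV n => q.1 - q.2 - g (D (q.1 - q.2))) (by fun_prop)
  set κ := finrank ℝ (LinearMap.ker D ⊓ Y : Submodule ℝ (EV n)) with hκ
  refine fr_of_small (C := (2 * |ρ| + 5) ^ κ * C * (2 * ‖g‖ + 1 + κ) ^ s) h0
    (h1.trans (le_max_left _ _)) (by positivity) fun a r hr hr1 => ?_
  rw [Measure.map_apply hD.measurable measurableSet_ball, ← measure_inter_conull hμK]
  rcases (D ⁻¹' ball a r ∩ K).eq_empty_or_nonempty with h | ⟨z0, hz0, hz0K⟩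
  · rw [h]; simp
  refine aff_tube μ hC (abs_nonneg ρ) (by positivity) hF (LinearMap.ker D ⊓ Y) le_rfl z0 hr hr1 _
    fun z hz => ⟨z - z0 - g (D (z - z0)), ⟨?_, ?_⟩, (hρ (z, z0) ⟨hz.2, hz0K⟩).trans (le_abs_self ρ),
      ?_⟩
  · rw [SetLike.mem_coe, LinearMap.mem_ker, map_sub, (hg _ (hY z hz.2 z0 hz0K)).2, sub_self]
  · exact Y.sub_mem (hY z hz.2 z0 hz0K) (hg _ (hY z hz.2 z0 hz0K)).1
  · rw [sub_sub_cancel]
    have h2 : ‖D (z - z0)‖ ≤ 2 * r := by
      rw [map_sub, ← dist_eq_norm]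
      linarith [dist_triangle_right (D z) (D z0) a, mem_ball.1 hz.1, mem_ball.1 hz0]
    have h3 := (g.le_opNorm _).trans (mul_le_mul_of_nonneg_left h2 (norm_nonneg g))
    linarith

theorem fr_le (hK : IsCompact K) (hμK : μ Kᶜ = 0) (Y : Submodule ℝ (EV n))
    (hY : ∀ z ∈ K, ∀ z' ∈ K, z - z' ∈ Y) {s : ℝ} (hF : Fr μ s) : s ≤ finrank ℝ Y := by
  by_contra h
  obtain ⟨C, -, hC⟩ := push μ hK hμK Y hY (0 : EV n →ₗ[ℝ] EV 0) (s' := s - finrank ℝ Y) hF
    (by linarith) (by rw [LinearMap.ker_zero, top_inf_eq])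
  obtain ⟨r, hr, h2⟩ := small_pow C (q := s - finrank ℝ Y) (ε := 1 / 2) (by linarith)
    (by norm_num)
  have h3 := (hC 0 r hr).trans (ENNReal.ofReal_le_ofReal (h2 r hr le_rfl))
  rw [Measure.map_apply (0 : EV n →ₗ[ℝ] EV 0).continuous_of_finiteDimensional.measurable
    measurableSet_ball, eq_univ_of_forall (s := _ ⁻¹' _) fun z => by simpa using hr,
    measure_univ, ENNReal.one_le_ofReal] at h3
  norm_num at h3

end Pool.Agent.P.MP_bf60a1_an.BF
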