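import Pool.Agent.P.MP_bf60a1_an.BF.Thin
import Pool.Agent.P.MP_bf60a1_an.BF.Lin

/-! Orthogonal triples for an arbitrary bilinear form. -/

namespace Pool.Agent.P.MP_bf60a1_an.BF

open MeasureTheory Metric Set RA TS Module
open scoped ENNReal

variable {n : ℕ}

/-- the measure lives on a flat and vanishes on smaller flats -/
theorem onflat (B : LinearMap.BilinForm ℝ (EV n)) (μ ν : Measure (EV n)) [IsProbabilityMeasure μ]
    [IsProbabilityMeasure ν] {K L : Set (EV n)} (hK : IsCompact K) (hL : IsCompact L)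
    (hμK : μ Kᶜ = 0) (hνL : ν Lᶜ = 0) {s t : ℝ} (hF : Fr μ s) (hF' : Fr ν t)
    (h1 : 2 * (n : ℝ) < 2 * s + finrank ℝ (LinearMap.range B))
    (h2 : 2 * (n : ℝ) < s + t + finrank ℝ (LinearMap.range B)) (V : AffineSubspace ℝ (EV n))
    (hKV : K ⊆ V)
    (h3 : finrank ℝ (LinearMap.range (B.restrict V.direction)) = 1 → finrank ℝ V.direction < s)
    (hmin : ∀ W : AffineSubspace ℝ (EV n), finrank ℝ W.direction < finrank ℝ V.direction →
      μ W = 0) :
    ∃ x ∈ L, ∃ y ∈ K, ∃ z ∈ K, x ≠ y ∧ y ≠ z ∧ x ≠ z ∧ B (x - y) (z - y) = 0 := by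
  obtain ⟨u, P, T, hB, e1, e2, e3, e4⟩ := factor B V.direction
  have hY : ∀ z ∈ K, ∀ z' ∈ K, z - z' ∈ V.direction := fun z hz z' hz' =>
    AffineSubspace.vsub_mem_direction (hKV hz) (hKV hz')
  have hsm := fr_le μ hK hμK _ hY hF
  have e5 := rk T V.direction
  have e6 := Submodule.finrank_mono (inf_le_left (a := LinearMap.ker T) (b := V.direction))
  have e7 : finrank ℝ (V.direction.map T) ≤ u :=
    (Submodule.finrank_le _).trans_eq finrank_euclideanSpace_fin
  rw [← e3] at h3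
  set m := finrank ℝ V.direction with hm
  set ρ := finrank ℝ (V.direction.map T) with hρ
  set r := finrank ℝ (LinearMap.range B) with hr
  have e8 : 2 * m + r ≤ ρ + 2 * n := by omega
  have c1 : (finrank ℝ (LinearMap.ker T) : ℝ) + u = n := by exact_mod_cast e1
  have c2 : (finrank ℝ (LinearMap.ker P ⊓ V.direction : Submodule ℝ (EV n)) : ℝ) + u = m := by
    exact_mod_cast e2
  have c4 : (r : ℝ) + m ≤ u + n := by exact_mod_cast e4
  have c5 : (ρ : ℝ) + finrank ℝ (LinearMap.ker T ⊓ V.direction : Submodule ℝ (EV n)) = m := by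
    exact_mod_cast e5
  have c7 : (ρ : ℝ) ≤ u := by exact_mod_cast e7
  have c8 : 2 * (m : ℝ) + r ≤ ρ + 2 * n := by exact_mod_cast e8
  have c9 : (2 : ℝ) ≤ ρ := by
    have a : 0 < ρ := by
      have : (0 : ℝ) < ρ := by linarith
      exact_mod_cast this
    have b : ρ ≠ 1 := fun h => absurd (h3 h) (not_lt.2 hsm)
    exact_mod_cast (show 2 ≤ ρ by omega)
  have hPc := P.continuous_of_finiteDimensional
  have hTc := T.continuous_of_finiteDimensional
  have : IsProbabilityMeasure (ν.map T) :=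
    Measure.isProbabilityMeasure_map hTc.measurable.aemeasurable
  obtain ⟨_, ⟨x, hx, rfl⟩, y, hy, z, hz, k1, k2, k3, k4⟩ := red (ν.map T) μ hK hμK (hL.image hTc)
    (by
      rw [Measure.map_apply hTc.measurable (hL.image hTc).measurableSet.compl]
      exact measure_mono_null (fun z hz h => hz ⟨z, h, rfl⟩) hνL) hPc hTc
    (a := s - m + u) (b := s - m + ρ) (t := t - n + u) (by linarith) (by linarith) (by linarith)
    (by linarith) (push μ hK hμK _ hY P hF (by linarith) (by linarith))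
    (push μ hK hμK _ hY T hF (by linarith) (by linarith))
    (push ν hL hνL ⊤ (fun _ _ _ _ => trivial) T hF' (by linarith) (by rw [inf_top_eq]; linarith))
    (by
      intro W hW
      rw [Measure.map_apply hTc.measurable W.closed_of_finiteDimensional.measurableSet,
        ← measure_inter_conull hμK]
      rcases (T ⁻¹' W ∩ K).eq_empty_or_nonempty with h | ⟨z0, hz0, hz0K⟩
      · rw [h]; simp
      have hz1 : z0 ∈ V ⊓ W.comap T.toAffineMap := ⟨hKV hz0K, hz0⟩
      refine measure_mono_null (t := (V ⊓ W.comap T.toAffineMap : AffineSubspace ℝ (EV n)))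
        (fun z hz => ⟨hKV hz.2, hz.1⟩) (hmin _ (Submodule.finrank_lt_finrank_of_lt
          (lt_of_le_of_ne (AffineSubspace.direction_le inf_le_left) fun h => ?_)))
      have a : V.direction.map T ≤ W.direction := by
        rintro _ ⟨v, hv, rfl⟩
        rw [← h] at hv
        have b : T (v + z0) ∈ W := (AffineSubspace.vadd_mem_of_mem_direction hv hz1).2
        have c := AffineSubspace.vsub_mem_direction b hz0
        rwa [vsub_eq_sub, ← map_sub, add_sub_cancel_right] at c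
      have b : (ρ : ℝ) ≤ finrank ℝ W.direction := by exact_mod_cast Submodule.finrank_mono a
      linarith)
  refine ⟨x, hx, y, hy, z, hz, fun h => k1 (by rw [h]), fun h => k3 (by rw [h]),
    fun h => k2 (by rw [h]), ?_⟩
  rw [hB _ _ (hY z hz y hy), map_sub, map_sub]
  exact k4

theorem meas (B : LinearMap.BilinForm ℝ (EV n)) (μ ν : Measure (EV n)) [IsProbabilityMeasure μ]
    [IsProbabilityMeasure ν] {K L : Set (EV n)} (hK : IsCompact K) (hL : IsCompact L)
    (hμK : μ Kᶜ = 0) (hνL : ν Lᶜ = 0) {s t : ℝ} (hF : Fr μ s) (hF' : Fr ν t)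
    (h1 : 2 * (n : ℝ) < 2 * s + finrank ℝ (LinearMap.range B))
    (h2 : 2 * (n : ℝ) < s + t + finrank ℝ (LinearMap.range B))
    (h3 : ∀ V : Submodule ℝ (EV n), finrank ℝ (LinearMap.range (B.restrict V)) = 1 →
      finrank ℝ V < s) :
    ∃ x ∈ L, ∃ y ∈ K, ∃ z ∈ K, x ≠ y ∧ y ≠ z ∧ x ≠ z ∧ B (x - y) (z - y) = 0 := by
  classical
  have hex : ∃ j, ∃ V : AffineSubspace ℝ (EV n), finrank ℝ V.direction = j ∧ μ V ≠ 0 :=
    ⟨_, ⊤, rfl, by simp⟩
  obtain ⟨V, hV, hV0⟩ := Nat.find_spec hex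
  have hVc : IsClosed (V : Set (EV n)) := V.closed_of_finiteDimensional
  have := ProbabilityTheory.cond_isProbabilityMeasure hV0
  obtain ⟨C, hC, hF⟩ := hF
  obtain ⟨x, hx, y, hy, z, hz, h⟩ := onflat B (ProbabilityTheory.cond μ V) ν (hK.inter_right hVc)
    hL (by
      rw [ProbabilityTheory.cond_apply hVc.measurableSet,
        measure_mono_null (s := (V : Set (EV n)) ∩ (K ∩ V)ᶜ) (fun z hz h => hz.2 ⟨h, hz.1⟩) hμK,
        mul_zero]) hνL
    ⟨(μ V)⁻¹.toReal * C, mul_nonneg ENNReal.toReal_nonneg hC, fun x r hr => by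
      rw [ProbabilityTheory.cond_apply hVc.measurableSet, mul_assoc,
        ENNReal.ofReal_mul ENNReal.toReal_nonneg, ENNReal.ofReal_toReal (ENNReal.inv_ne_top.2 hV0)]
      exact mul_le_mul_right ((measure_mono inter_subset_right).trans (hF x r hr)) _⟩
    hF' h1 h2 V inter_subset_right (h3 _) fun W hW => by
      refine ProbabilityTheory.cond_absolutelyContinuous ?_
      by_contra h
      exact Nat.find_min hex (hV ▸ hW) ⟨W, rfl, h⟩
  exact ⟨x, hx, y, hy.1, z, hz.1, h⟩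

theorem final (B : LinearMap.BilinForm ℝ (EV n)) {E F : Set (EV n)} (hE : AnalyticSet E)
    (hF : AnalyticSet F)
    (h1 : 2 * (n : ℝ≥0∞) < 2 * dimH E + finrank ℝ (LinearMap.range B))
    (h2 : 2 * (n : ℝ≥0∞) < dimH E + dimH F + finrank ℝ (LinearMap.range B))
    (h3 : ∀ V : Submodule ℝ (EV n), finrank ℝ (LinearMap.range (B.restrict V)) = 1 →
      (finrank ℝ V : ℝ≥0∞) < dimH E) :
    ∃ x ∈ F, ∃ y ∈ E, ∃ z ∈ E, x ≠ y ∧ y ≠ z ∧ x ≠ z ∧ B (x - y) (z - y) = 0 := by
  have hle : ∀ S : Set (EV n), dimH S ≤ n := fun S => (dimH_mono (subset_univ S)).trans_eq (by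
    rw [Real.dimH_univ_eq_finrank, finrank_euclideanSpace_fin])
  have hfin : ∀ S : Set (EV n), dimH S ≠ ∞ := fun S =>
    ne_top_of_le_ne_top (ENNReal.natCast_ne_top n) (hle S)
  have hr : finrank ℝ (LinearMap.range B) ≤ n := by
    have := B.finrank_range_add_finrank_ker
    rw [finrank_euclideanSpace_fin] at this
    omega
  set r := finrank ℝ (LinearMap.range B) with hrd
  have hr' : (r : ℝ) ≤ n := by exact_mod_cast hr
  have f2 : 2 * dimH E ≠ ∞ := ENNReal.mul_ne_top (by norm_num) (hfin E)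
  have f3 : dimH E + dimH F ≠ ∞ := ENNReal.add_ne_top.2 ⟨hfin E, hfin F⟩
  have a0 := ENNReal.toReal_mono (ENNReal.natCast_ne_top n) (hle E)
  have a1 := ENNReal.toReal_strict_mono (ENNReal.add_ne_top.2 ⟨f2, ENNReal.natCast_ne_top r⟩) h1
  have a2 := ENNReal.toReal_strict_mono (ENNReal.add_ne_top.2 ⟨f3, ENNReal.natCast_ne_top r⟩) h2
  rw [ENNReal.toReal_add f2 (ENNReal.natCast_ne_top r)] at a1
  rw [ENNReal.toReal_add f3 (ENNReal.natCast_ne_top r), ENNReal.toReal_add (hfin E) (hfin F)] at a2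
  simp only [ENNReal.toReal_mul, ENNReal.toReal_natCast, ENNReal.toReal_ofNat] at a0 a1 a2
  have n0 : (0 : ℝ) ≤ n := Nat.cast_nonneg n
  have a3 := Nat.ceil_lt_add_one (ENNReal.toReal_nonneg (a := dimH E))
  obtain ⟨s, s1, s2⟩ := exists_between (max_lt (max_lt
    (show n - (r : ℝ) / 2 < (dimH E).toReal by linarith)
    (show 2 * n - (r : ℝ) - (dimH F).toReal < (dimH E).toReal by linarith))
    (show (⌈(dimH E).toReal⌉₊ : ℝ) - 1 < (dimH E).toReal by linarith))
  rw [max_lt_iff, max_lt_iff] at s1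
  obtain ⟨⟨s3, s4⟩, s5⟩ := s1
  obtain ⟨t, t1, t2⟩ := exists_between (show 2 * n - r - s < (dimH F).toReal by linarith)
  have fr : ∀ {S : Set (EV n)} {u : ℝ}, 0 < u → u < (dimH S).toReal → μH[u] S ≠ 0 := by
    intro S u hu h
    have := hausdorffMeasure_of_lt_dimH (d := u.toNNReal)
      ((ENNReal.ofReal_lt_iff_lt_toReal hu.le (hfin S)).2 h)
    rw [Real.coe_toNNReal _ hu.le] at this
    rw [this]
    exact ENNReal.top_ne_zero
  have s0 : 0 < s := by linarith
  have t0 : 0 < t := by linarith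
  obtain ⟨μ, K, C, _, hK, hKE, hμK, hC, hFr⟩ :=
    Pool.Agent.Lib.Helper82.frostman_analytic hE s0 (fr s0 s2)
  obtain ⟨ν, L, C', _, hL, hLF, hνL, hC', hFr'⟩ :=
    Pool.Agent.Lib.Helper82.frostman_analytic hF t0 (fr t0 t2)
  obtain ⟨x, hx, y, hy, z, hz, h⟩ := meas B μ ν hK hL hμK hνL (s := s) (t := t)
    ⟨C, by linarith, hFr⟩ ⟨C', by linarith, hFr'⟩ (by linarith) (by linarith) fun V hV => by
      have b := ENNReal.toReal_strict_mono (hfin E) (h3 V hV)
      rw [ENNReal.toReal_natCast] at b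
      have c : (finrank ℝ V : ℝ) + 1 ≤ ⌈(dimH E).toReal⌉₊ := by exact_mod_cast Nat.lt_ceil.2 b
      linarith
  exact ⟨x, hLF hx, y, hKE hy, z, hKE hz, h⟩

end Pool.Agent.P.MP_bf60a1_an.BF
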