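import Pool.Agent.P.MP_bf60a1_an.BF.Sharp

/-! Transport to an arbitrary finite dimensional normed space. -/

namespace Pool.Agent.P.MP_bf60a1_an.BF

open MeasureTheory Set TS Module
open scoped ENNReal

theorem rank_eq {M M' : Type} [AddCommGroup M] [Module ℝ M] [AddCommGroup M'] [Module ℝ M']
    [FiniteDimensional ℝ M] [FiniteDimensional ℝ M'] (l : M ≃ₗ[ℝ] M')
    (B : LinearMap.BilinForm ℝ M) (B' : LinearMap.BilinForm ℝ M')
    (h : ∀ v w, B v w = B' (l v) (l w)) :
    finrank ℝ (LinearMap.range B) = finrank ℝ (LinearMap.range B') := by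
  have a := B.finrank_range_add_finrank_ker
  have b := B'.finrank_range_add_finrank_ker
  have c : (LinearMap.ker B).map l.toLinearMap = LinearMap.ker B' := by
    ext y
    obtain ⟨x, rfl⟩ := l.surjective y
    rw [Submodule.mem_map_equiv, l.symm_apply_apply, LinearMap.mem_ker, LinearMap.mem_ker]
    refine ⟨fun k => LinearMap.ext fun z => ?_, fun k => LinearMap.ext fun z => ?_⟩
    · obtain ⟨w, rfl⟩ := l.surjective z
      exact (h x w).symm.trans (LinearMap.congr_fun k w)
    · exact (h x z).trans (LinearMap.congr_fun k (l z))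
  rw [← c, LinearEquiv.finrank_map_eq, ← l.finrank_eq] at b
  exact Nat.add_right_cancel (a.trans b.symm)

theorem gen (X : Type) [NormedAddCommGroup X] [NormedSpace ℝ X] [FiniteDimensional ℝ X]
    (B : LinearMap.BilinForm ℝ X) (c : ℝ≥0∞)
    (hc : 2 * (finrank ℝ X : ℝ≥0∞) ≤ 2 * c + finrank ℝ (LinearMap.range B)) :
    (∀ E F : Set X, AnalyticSet E → AnalyticSet F → c < dimH E →
      2 * (finrank ℝ X : ℝ≥0∞) < dimH E + dimH F + finrank ℝ (LinearMap.range B) →
      ∃ x ∈ F, ∃ y ∈ E, ∃ z ∈ E, x ≠ y ∧ y ≠ z ∧ x ≠ z ∧ B (x - y) (z - y) = 0) ↔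
    ∀ V : Submodule ℝ X, finrank ℝ (LinearMap.range (B.restrict V)) = 1 →
      (finrank ℝ V : ℝ≥0∞) ≤ c := by
  let e : X ≃L[ℝ] EV (finrank ℝ X) :=
    ContinuousLinearEquiv.ofFinrankEq finrank_euclideanSpace_fin.symm
  let B' : LinearMap.BilinForm ℝ (EV (finrank ℝ X)) :=
    B.comp e.symm.toLinearEquiv.toLinearMap e.symm.toLinearEquiv.toLinearMap
  have hB : ∀ v w, B' v w = B (e.symm v) (e.symm w) := fun _ _ => rfl
  have hB' : ∀ v w, B v w = B' (e v) (e w) := fun v w => by
    rw [hB, e.symm_apply_apply, e.symm_apply_apply]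
  have hr := rank_eq e.toLinearEquiv B B' hB'
  have h := forms B' c (by rw [← hr]; exact hc)
  rw [← hr] at h
  refine Iff.trans ?_ (h.trans ?_)
  · constructor
    · intro k E F hE hF h1 h2
      obtain ⟨_, ⟨x, hx, rfl⟩, _, ⟨y, hy, rfl⟩, _, ⟨z, hz, rfl⟩, k1, k2, k3, k4⟩ :=
        k (e.symm '' E) (e.symm '' F) (hE.image_of_continuous e.symm.continuous)
          (hF.image_of_continuous e.symm.continuous) (by rwa [e.symm.dimH_image])
          (by rwa [e.symm.dimH_image, e.symm.dimH_image])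
      exact ⟨x, hx, y, hy, z, hz, fun a => k1 (by rw [a]), fun a => k2 (by rw [a]),
        fun a => k3 (by rw [a]), by rw [hB, map_sub e.symm, map_sub e.symm]; exact k4⟩
    · intro k E F hE hF h1 h2
      obtain ⟨_, ⟨x, hx, rfl⟩, _, ⟨y, hy, rfl⟩, _, ⟨z, hz, rfl⟩, k1, k2, k3, k4⟩ :=
        k (e '' E) (e '' F) (hE.image_of_continuous e.continuous)
          (hF.image_of_continuous e.continuous) (by rwa [e.dimH_image])
          (by rwa [e.dimH_image, e.dimH_image])
      exact ⟨x, hx, y, hy, z, hz, fun a => k1 (by rw [a]), fun a => k2 (by rw [a]),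
        fun a => k3 (by rw [a]), by rw [hB', map_sub e, map_sub e]; exact k4⟩
  · constructor
    · intro k V hV
      rw [(e.toLinearEquiv.submoduleMap V).finrank_eq]
      exact k _ ((rank_eq (e.toLinearEquiv.submoduleMap V) (B.restrict V) (B'.restrict _)
        fun v w => hB' v w).symm.trans hV)
    · intro k V hV
      rw [(e.symm.toLinearEquiv.submoduleMap V).finrank_eq]
      exact k _ ((rank_eq (e.symm.toLinearEquiv.submoduleMap V) (B'.restrict V) (B.restrict _)
        fun v w => hB v w).symm.trans hV)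

end Pool.Agent.P.MP_bf60a1_an.BF
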