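import Pool.Agent.P.MP_bf60a1_an.TS.Key

/-!
Key lemma for two unrelated maps `p`, `T` on a parameter space.
-/

namespace Pool.Agent.P.MP_bf60a1_an.BF

open MeasureTheory Real Set Metric TS
open scoped ENNReal RealInnerProductSpace Topology

variable {E : Type*} [NormedAddCommGroup E] [InnerProductSpace ℝ E]

lemma geo5 {a y u v w : E} {η h d : ℝ} (hη : 0 < η) (hd : 0 < d) (hu : ‖u - a‖ < η)
    (hv : ‖v‖ ≤ 1) (hw : ‖w‖ ≤ 1) (hh : 4 * d / 5 ≤ h)
    (hk : |⟪y - a, w⟫ / η - ⟪y - a, v⟫ / η| < 1) : |⟪h⁻¹ • (y - u), w - v⟫| ≤ 4 * η / d := by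
  have hh0 : 0 < h := by linarith
  rw [← sub_div, abs_div, abs_of_pos hη, div_lt_one hη, ← inner_sub_right] at hk
  have e1 : ⟪y - u, w - v⟫ = ⟪y - a, w - v⟫ - ⟪u - a, w - v⟫ := by
    rw [← inner_sub_left, sub_sub_sub_cancel_right]
  have e2 : |⟪u - a, w - v⟫| ≤ η * 2 :=
    (abs_real_inner_le_norm _ _).trans (mul_le_mul hu.le ((norm_sub_le _ _).trans (by linarith))
      (norm_nonneg _) hη.le)
  have e3 : |⟪y - u, w - v⟫| ≤ 3 * η := by
    rw [e1]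
    exact (abs_sub _ _).trans (by linarith)
  rw [real_inner_smul_left, abs_mul, abs_of_pos (inv_pos.2 hh0)]
  calc _ ≤ (4 * d / 5)⁻¹ * (3 * η) := by gcongr
    _ = 15 / 4 * η / d := by field_simp; ring
    _ ≤ _ := by gcongr; norm_num

variable {X : Type*} [TopologicalSpace X]

lemma compact_end3 {K : Set X} {L : Set E} (hK : IsCompact K) (hL : IsCompact L) {p T : X → E}
    (hp : Continuous p) (hT : Continuous T) {a b : ℝ} (ha : 0 < a) (hb : 0 < b)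
    (h : ∀ m : ℝ, 0 < m → ∃ x ∈ K, ∃ y ∈ L, ∃ z ∈ K, a ≤ ‖p x - p z‖ ∧ b ≤ ‖y - T x‖ ∧
      b ≤ ‖y - T z‖ ∧ |⟪y - T x, p z - p x⟫| < m) :
    ∃ y ∈ L, ∃ x ∈ K, ∃ z ∈ K, y ≠ T x ∧ y ≠ T z ∧ p x ≠ p z ∧ ⟪y - T x, p z - p x⟫ = 0 := by
  set S : Set (X × E × X) := (K ×ˢ L ×ˢ K) ∩
    {q | a ≤ ‖p q.1 - p q.2.2‖ ∧ b ≤ ‖q.2.1 - T q.1‖ ∧ b ≤ ‖q.2.1 - T q.2.2‖} with hS
  have hSc : IsCompact S := by
    refine (hK.prod (hL.prod hK)).inter_right ?_
    have c1 : IsClosed {q : X × E × X | a ≤ ‖p q.1 - p q.2.2‖} :=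
      isClosed_le continuous_const (by fun_prop)
    have c2 : IsClosed {q : X × E × X | b ≤ ‖q.2.1 - T q.1‖} :=
      isClosed_le continuous_const (by fun_prop)
    have c3 : IsClosed {q : X × E × X | b ≤ ‖q.2.1 - T q.2.2‖} :=
      isClosed_le continuous_const (by fun_prop)
    exact c1.inter (c2.inter c3)
  have hne : S.Nonempty := by
    obtain ⟨x, hx, y, hy, z, hz, h1, h2, h3, -⟩ := h 1 one_pos
    exact ⟨(x, y, z), ⟨hx, hy, hz⟩, h1, h2, h3⟩
  obtain ⟨⟨x, y, z⟩, ⟨⟨hx, hy, hz⟩, h1, h2, h3⟩, hmin⟩ := hSc.exists_isMinOn hne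
    (f := fun q : X × E × X => |⟪q.2.1 - T q.1, p q.2.2 - p q.1⟫|) (by fun_prop)
  dsimp only at h1 h2 h3
  refine ⟨y, hy, x, hx, z, hz, fun e => ?_, fun e => ?_, fun e => ?_, ?_⟩
  · rw [e, sub_self, norm_zero] at h2; linarith
  · rw [e, sub_self, norm_zero] at h3; linarith
  · rw [e, sub_self, norm_zero] at h1; linarith
  · by_contra h0
    obtain ⟨x', hx', y', hy', z', hz', k1, k2, k3, k4⟩ := h _ (abs_pos.2 h0)
    have := hmin (a := (x', y', z')) ⟨⟨hx', hy', hz'⟩, k1, k2, k3⟩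
    exact absurd k4 (not_lt.2 this)

variable [MeasurableSpace E] [BorelSpace E] [FiniteDimensional ℝ E] [MeasurableSpace X]
  [OpensMeasurableSpace X]

theorem key4 (μ : Measure X) (ν : Measure E) [IsProbabilityMeasure μ] [IsProbabilityMeasure ν]
    {K : Set X} {L : Set E} (hK : IsCompact K) (hL : IsCompact L) (hμK : μ Kᶜ = 0)
    (hνL : ν Lᶜ = 0) {P T : X → E} (hP : Continuous P) (hT : Continuous T) {s s' c C C' C'' : ℝ}
    (hs : 1 < s) (hs' : 0 < s') (hsc : (Module.finrank ℝ E : ℝ) < s + c)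
    (hF : ∀ x r, 0 < r → μ.map P (ball x r) ≤ ENNReal.ofReal (C * r ^ s))
    (hF' : ∀ x r, 0 < r → μ.map T (ball x r) ≤ ENNReal.ofReal (C' * r ^ s')) {G : Set (E × E)}
    (hG : MeasurableSet G) (hpos : ((μ.map T).prod ν) G ≠ 0)
    (hthin : ∀ x y, (x, y) ∈ G → ∀ δ : ℝ, 0 < δ →
      ν {z | (x, z) ∈ G ∧ ∃ t : ℝ, dist z (x + t • (y - x)) < δ} ≤ ENNReal.ofReal (C'' * δ ^ c)) :
    ∃ y ∈ L, ∃ x ∈ K, ∃ z ∈ K, y ≠ T x ∧ y ≠ T z ∧ P x ≠ P z ∧ ⟪y - T x, P z - P x⟫ = 0 := by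
  classical
  have hTm := hT.measurable
  have hPm := hP.measurable
  set lam := μ.map T with hlam
  have : IsProbabilityMeasure lam := Measure.isProbabilityMeasure_map hTm.aemeasurable
  obtain ⟨a, b, hab, hG1⟩ := localize2 lam ν hs' hF' hpos
  set d := ‖b - a‖ with hdd
  have hd : 0 < d := norm_pos_iff.2 (sub_ne_zero.2 hab.symm)
  set B : Set (E × E) := ball a (d / 10) ×ˢ ball b (d / 10) with hB
  have hBm : MeasurableSet B := measurableSet_ball.prod measurableSet_ball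
  set G1 := G ∩ B with hG1d
  have hG1m : MeasurableSet G1 := hG.inter hBm
  obtain ⟨c0, hc0, hX0⟩ := level_set2 lam ν hG1m hG1
  set X0 : Set E := {x | ENNReal.ofReal c0 ≤ ν (Prod.mk x ⁻¹' G1)} with hX0d
  have hX0m : MeasurableSet X0 :=
    measurableSet_le measurable_const (measurable_measure_prodMk_left hG1m)
  have hX0B : ∀ x ∈ X0, ‖x - a‖ < d / 10 := by
    intro x hx
    have : ν (Prod.mk x ⁻¹' G1) ≠ 0 := ne_of_gt ((ENNReal.ofReal_pos.2 hc0).trans_le hx)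
    obtain ⟨y, hy⟩ := nonempty_of_measure_ne_zero this
    exact mem_ball_iff_norm.1 hy.2.1
  set e : E := d⁻¹ • (b - a) with hed
  have he : ‖e‖ = 1 := by
    rw [hed, norm_smul, ← hdd, norm_inv, Real.norm_eq_abs, abs_of_pos hd, inv_mul_cancel₀ hd.ne']
  have hgeo : ∀ q ∈ B, 4 * d / 5 ≤ ⟪e, q.2 - q.1⟫ ∧ ‖q.2 - q.1‖ ≤ 6 * d / 5 ∧
      ⟪e, q.2 - q.1⟫ ≤ ‖q.2 - q.1‖ := fun q hq =>
    geo1 hd rfl (mem_ball_iff_norm.1 hq.1) (mem_ball_iff_norm.1 hq.2)
  set θ : E × E → E := fun q => if q ∈ B then ⟪e, q.2 - q.1⟫⁻¹ • (q.2 - q.1) else e with hθd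
  have hθm : Measurable θ := Measurable.ite hBm (by fun_prop) measurable_const
  have hθB : ∀ q ∈ B, θ q = ⟪e, q.2 - q.1⟫⁻¹ • (q.2 - q.1) := fun q hq => if_pos hq
  have hθ2 : ∀ q, ‖θ q‖ ≤ 2 := by
    intro q
    by_cases hq : q ∈ B
    · obtain ⟨h1, h2, -⟩ := hgeo q hq
      have h3 : 0 < ⟪e, q.2 - q.1⟫ := by linarith
      rw [hθB q hq, norm_smul, norm_inv, Real.norm_eq_abs, abs_of_pos h3, inv_mul_le_iff₀ h3]
      linarith
    · simp only [hθd, if_neg hq, he]; norm_num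
  have hθe : ∀ q, ⟪e, θ q⟫ = 1 := by
    intro q
    by_cases hq : q ∈ B
    · have h3 : 0 < ⟪e, q.2 - q.1⟫ := by linarith [(hgeo q hq).1]
      rw [hθB q hq, real_inner_smul_right, inv_mul_cancel₀ h3.ne']
    · simp only [hθd, if_neg hq, real_inner_self_eq_norm_sq, he]; norm_num
  have hth : ∀ x w ρ, 0 < ρ → ν {y | (x, y) ∈ G1 ∧ ‖θ (x, y) - w‖ < ρ} ≤
      ENNReal.ofReal (|C''| * (3 * d) ^ c * ρ ^ c) := by
    intro x w ρ hρ
    rcases Set.eq_empty_or_nonempty {y | (x, y) ∈ G1 ∧ ‖θ (x, y) - w‖ < ρ} with h | ⟨y0, h0, h1⟩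
    · rw [h]; simp
    · refine le_trans (measure_mono ?_) ((hthin x y0 h0.1 (3 * d * ρ) (by positivity)).trans ?_)
      · rintro y ⟨h2, h3⟩
        rw [hθB _ h0.2] at h1
        rw [hθB _ h2.2] at h3
        obtain ⟨k1, k2, k3⟩ := hgeo _ h2.2
        exact ⟨h2.1, geo2 (by linarith) (k3.trans k2) h3 h1⟩
      · apply ENNReal.ofReal_le_ofReal
        rw [Real.mul_rpow (by positivity) hρ.le, mul_assoc]
        exact mul_le_mul_of_nonneg_right (le_abs_self C'') (by positivity)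
  obtain ⟨e1, he1, ρ, hρ, hcore⟩ := core (E := E) (X := X) (Y := E) (F := 2)
    (K := |C''| * (3 * d) ^ c) (c1 := c0 ^ 2 / 40) hs hsc (by norm_num) (by positivity)
    (by positivity)
  set η : ℝ := min d (e1 * d / 4) with hηd
  have hη : 0 < η := lt_min hd (by positivity)
  have hηd' : η ≤ d := min_le_left _ _
  have hre : 4 * η / d ≤ e1 := by
    rw [div_le_iff₀ hd]; linarith [min_le_right d (e1 * d / 4)]
  obtain ⟨a1, ha1, ha1'⟩ := exists_mem_forall_mem_nhdsWithin_pos_measure hX0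
  have hX1 : lam (X0 ∩ ball a1 η) ≠ 0 :=
    ne_of_gt (ha1' _ (inter_mem_nhdsWithin _ (ball_mem_nhds a1 hη)))
  have hX1m : MeasurableSet (X0 ∩ ball a1 η) := hX0m.inter measurableSet_ball
  set μ' := μ.restrict (T ⁻¹' (X0 ∩ ball a1 η)) with hμ'
  obtain ⟨x0, r, hr, -, hQ, hsel⟩ := select_ball (μ'.map P) (C := |C|) (s := s)
    (by rwa [Measure.map_apply hPm MeasurableSet.univ, preimage_univ, hμ',
      Measure.restrict_apply_univ, ← Measure.map_apply hTm hX1m]) (abs_nonneg C)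
    (fun x r hr => (Measure.map_mono Measure.restrict_le_self hPm _).trans ((hF x r hr).trans
      (ENNReal.ofReal_le_ofReal (mul_le_mul_of_nonneg_right (le_abs_self C) (by positivity)))))
    (r0 := 1) one_pos
  set Q := P ⁻¹' ball x0 r with hQd
  have hQm : MeasurableSet Q := hPm measurableSet_ball
  rw [Measure.map_apply hPm measurableSet_ball] at hQ hsel
  set μ1 : Measure X := ProbabilityTheory.cond μ' Q with hμ1
  have : IsProbabilityMeasure μ1 := ProbabilityTheory.cond_isProbabilityMeasure hQ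
  have hae : ∀ᵐ x ∂μ1, x ∈ K ∧ T x ∈ X0 ∩ ball a1 η ∧ x ∈ Q := by
    have h1 : μ1 ≪ μ' := ProbabilityTheory.cond_absolutelyContinuous
    have h2 : ∀ᵐ x ∂μ', x ∈ K := ae_restrict_of_ae (show ∀ᵐ x ∂μ, x ∈ K from hμK)
    have h3 : ∀ᵐ x ∂μ', x ∈ T ⁻¹' (X0 ∩ ball a1 η) := ae_restrict_mem (hTm hX1m)
    filter_upwards [h1.ae_le h2, h1.ae_le h3, ProbabilityTheory.ae_cond_mem (μ := μ') hQm]
      with x k1 k2 k3
    exact ⟨k1, k2, k3⟩
  set p : X → E := fun x => if x ∈ Q then r⁻¹ • (P x - x0) else 0 with hpd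
  have hpm : Measurable p := Measurable.ite hQm (by fun_prop) measurable_const
  have hpQ : ∀ x ∈ Q, p x = r⁻¹ • (P x - x0) := fun x hx => if_pos hx
  have hp1 : ∀ x, ‖p x‖ ≤ 1 := by
    intro x
    by_cases hx : x ∈ Q
    · rw [hpQ x hx, norm_smul, norm_inv, Real.norm_eq_abs, abs_of_pos hr, inv_mul_le_iff₀ hr,
        mul_one]
      exact (mem_ball_iff_norm.1 hx).le
    · simp [hpd, if_neg hx]
  have hFr : ∀ w ρ, 0 < ρ → μ1 {x | ‖p x - w‖ < ρ} ≤ ENNReal.ofReal (2 * ρ ^ s) := by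
    intro w ρ hρ
    rcases le_total ρ 1 with h1 | h1
    · rw [hμ1, ProbabilityTheory.cond_apply hQm]
      have h2 : Q ∩ {x | ‖p x - w‖ < ρ} ⊆ P ⁻¹' ball (x0 + r • w) (r * ρ) := by
        rintro x ⟨hx, h3⟩
        have h4 : ‖p x - w‖ < ρ := h3
        rw [hpQ x hx] at h4
        have h5 : P x - (x0 + r • w) = r • (r⁻¹ • (P x - x0) - w) := by
          rw [smul_sub r, smul_smul, mul_inv_cancel₀ hr.ne', one_smul]; abel
        rw [mem_preimage, mem_ball_iff_norm, h5, norm_smul, Real.norm_eq_abs, abs_of_pos hr]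
        gcongr
      have h6 := hsel (x0 + r • w) ρ hρ h1
      rw [Measure.map_apply hPm measurableSet_ball] at h6
      calc _ ≤ (μ' Q)⁻¹ * (μ' Q * ENNReal.ofReal (2 * ρ ^ s)) :=
            mul_le_mul_right ((measure_mono h2).trans h6) _
        _ = _ := by rw [← mul_assoc, ENNReal.inv_mul_cancel hQ (measure_ne_top _ _), one_mul]
    · refine prob_le_one.trans (ENNReal.one_le_ofReal.2 ?_)
      have := Real.one_le_rpow h1 (by linarith : 0 ≤ s)
      linarith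
  have hTT : Measurable fun q : X × E => (T q.1, q.2) := by fun_prop
  set G2 : Set (X × E) := (fun q : X × E => (T q.1, q.2)) ⁻¹' G1 with hG2
  have hG2m : MeasurableSet G2 := hTT hG1m
  have hae2 : ∀ᵐ q ∂(((μ1.prod ν).restrict G2).prod μ1),
      (q.1.1 ∈ K ∧ T q.1.1 ∈ X0 ∩ ball a1 η ∧ q.1.1 ∈ Q) ∧ q.1.2 ∈ L ∧ q.1 ∈ G2 ∧
        (q.2 ∈ K ∧ T q.2 ∈ X0 ∩ ball a1 η ∧ q.2 ∈ Q) := by
    have h1 : ∀ᵐ q ∂(μ1.prod ν), q.1 ∈ K ∧ T q.1 ∈ X0 ∩ ball a1 η ∧ q.1 ∈ Q :=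
      Measure.quasiMeasurePreserving_fst.ae hae
    have h2 : ∀ᵐ q ∂(μ1.prod ν), q.2 ∈ L :=
      Measure.quasiMeasurePreserving_snd.ae (show ∀ᵐ x ∂ν, x ∈ L from hνL)
    have h3 : ∀ᵐ q ∂((μ1.prod ν).restrict G2),
        (q.1 ∈ K ∧ T q.1 ∈ X0 ∩ ball a1 η ∧ q.1 ∈ Q) ∧ q.2 ∈ L ∧ q ∈ G2 := by
      filter_upwards [ae_restrict_of_ae h1, ae_restrict_of_ae h2, ae_restrict_mem hG2m]
        with q k1 k2 k3
      exact ⟨k1, k2, k3⟩
    filter_upwards [Measure.quasiMeasurePreserving_fst.ae h3,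
      Measure.quasiMeasurePreserving_snd.ae hae] with q k1 k2
    exact ⟨k1.1, k1.2.1, k1.2.2, k2⟩
  set k : X × E → ℤ := fun q => ⌊⟪q.2 - a1, p q.1⟫ / η⌋ with hkd
  have hkm : Measurable k := by
    refine Measurable.floor (Measurable.div_const ?_ _)
    exact (measurable_snd.sub_const a1).inner (hpm.comp measurable_fst)
  have hdr : 1 ≤ d / η := (one_le_div hη).2 hηd'
  have hen := energy_lower μ1 ν hG2m hkm (Finset.Icc ⌊-(4 * (d / η))⌋ ⌊4 * (d / η)⌋)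
    (M := 10 * (d / η)) (c0 := c0) (by
      intro q hq
      rw [Finset.mem_Icc]
      have h0 : (a1, q.2) ∈ B := ⟨mem_ball_iff_norm.2 (hX0B _ ha1), hq.2.2⟩
      have h1 : |⟪q.2 - a1, p q.1⟫| ≤ 4 * d :=
        (abs_real_inner_le_norm _ _).trans ((mul_le_mul (hgeo _ h0).2.1 (hp1 _) (norm_nonneg _)
          (by positivity)).trans (by linarith))
      have h3 := abs_le.1 h1
      have h2 : 4 * (d / η) = 4 * d / η := by ring
      simp only [hkd]
      constructor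
      · apply Int.floor_mono
        rw [h2, ← neg_div]; gcongr; exact h3.1
      · apply Int.floor_mono
        rw [h2]; gcongr; exact h3.2)
    (by positivity) (by
      rw [Int.card_Icc]
      have h1 := Int.floor_le (4 * (d / η))
      have h2 := Int.lt_floor_add_one (-(4 * (d / η)))
      have h3 : (0 : ℤ) ≤ ⌊4 * (d / η)⌋ + 1 - ⌊-(4 * (d / η))⌋ := by
        have := Int.floor_mono (show -(4 * (d / η)) ≤ 4 * (d / η) by linarith)
        omega
      rw [← Int.cast_natCast, Int.toNat_of_nonneg h3]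
      push_cast
      linarith) hc0.le (by
      rw [Measure.prod_apply hG2m]
      calc ENNReal.ofReal c0 = ∫⁻ _x, ENNReal.ofReal c0 ∂μ1 := by simp
        _ ≤ _ := lintegral_mono_ae (hae.mono fun x hx => hx.2.1.1))
  have hmain := hcore μ1 ν (by simp) G2 hG2m p hpm hp1 (fun q => θ (T q.1, q.2)) (hθm.comp hTT)
    (fun q => hθ2 _) e he (fun q => hθe _) hFr (fun x => hth (T x)) (4 * η / d)
    (by positivity) hre (by
      rw [show c0 ^ 2 / 40 * (4 * η / d) = c0 ^ 2 / (10 * (d / η)) by field_simp; ring]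
      refine hen.trans (measure_mono_ae ?_)
      filter_upwards [hae2] with q hq h
      obtain ⟨⟨-, ⟨-, k1⟩, -⟩, -, k2, -⟩ := hq
      have h1 : k (q.2, q.1.2) = k q.1 := h.2
      have h2 := Int.abs_sub_lt_one_of_floor_eq_floor h1
      change |⟪θ (T q.1.1, q.1.2), p q.2 - p q.1.1⟫| ≤ _
      rw [hθB _ k2.2]
      exact geo5 hη hd (mem_ball_iff_norm.1 k1) (hp1 _) (hp1 _) (hgeo _ k2.2).1 h2)
  refine compact_end3 hK hL hP hT (a := r * ρ) (b := d / 2) (by positivity) (by positivity)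
    fun m hm => ?_
  have h1 := hmain (m / (2 * d * r)) (by positivity)
  obtain ⟨q, ⟨h2, h3⟩, ⟨k1, -, k2⟩, k3, k4, k5, k6, k7⟩ :=
    Measure.exists_mem_of_measure_ne_zero_of_ae h1 (ae_restrict_of_ae hae2)
  obtain ⟨g1, g2, g3⟩ := hgeo _ k4.2
  obtain ⟨g4, -, g6⟩ := hgeo (T q.2, q.1.2) ⟨mem_ball_iff_norm.2 (hX0B _ k6.1), k4.2.2⟩
  dsimp only at g1 g2 g3 g4 g6
  refine ⟨q.1.1, k1, q.1.2, k3, q.2, k5, ?_, by linarith, by linarith, ?_⟩
  · rw [hpQ _ k2, hpQ _ k7, ← smul_sub, sub_sub_sub_cancel_right, norm_smul, norm_inv,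
      Real.norm_eq_abs, abs_of_pos hr, le_inv_mul_iff₀ hr] at h2
    exact h2
  · have h4 : 0 < ⟪e, q.1.2 - T q.1.1⟫ := by linarith
    rw [hθB _ k4.2, hpQ _ k2, hpQ _ k7, ← smul_sub, sub_sub_sub_cancel_right,
      real_inner_smul_left, real_inner_smul_right, abs_mul, abs_mul, abs_of_pos (inv_pos.2 h4),
      abs_of_pos (inv_pos.2 hr), inv_mul_lt_iff₀ h4, inv_mul_lt_iff₀ hr] at h3
    refine h3.trans_le ?_
    calc _ ≤ r * (2 * d * (m / (2 * d * r))) := by gcongr; linarith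
      _ = m := by field_simp

end Pool.Agent.P.MP_bf60a1_an.BF
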