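import Pool.Agent.P.MP_bf60a1_an.BF.Final
import Pool.Agent.P.MP_bf60a1_an.BF.Cube

/-! Subspaces of rank one carry large sets without orthogonal triples. -/

namespace Pool.Agent.P.MP_bf60a1_an.BF

open MeasureTheory Set TS Module
open scoped ENNReal

section

variable {V : Type} [AddCommGroup V] [Module ℝ V] [FiniteDimensional ℝ V]

theorem coords_of {s : Set (Dual ℝ V)} (hs : LinearIndepOn ℝ id s) :
    ∃ (ι : Type) (_ : Fintype ι) (e : V ≃ₗ[ℝ] (ι → ℝ)), ∀ α ∈ s, ∃ i, ∀ v, e v i = α v := by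
  classical
  have := FiniteDimensional.fintypeBasisIndex (Basis.extend hs)
  refine ⟨_, this, (Module.evalEquiv ℝ V).trans (Basis.extend hs).dualBasis.equivFun,
    fun α hα => ⟨⟨α, hs.subset_extend _ hα⟩, fun v => ?_⟩⟩
  rw [LinearEquiv.trans_apply, Basis.dualBasis_equivFun, Basis.extend_apply_self]
  rfl

theorem coords {α β : Dual ℝ V} (hα : α ≠ 0) (hβ : β ≠ 0) :
    ∃ (ι : Type) (_ : Fintype ι) (e : V ≃ₗ[ℝ] (ι → ℝ)) (i j : ι),
      (∀ v, α v = 0 → e v i = 0) ∧ ∀ v, β v = 0 → e v j = 0 := by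
  by_cases h : ∀ c : ℝ, c • α ≠ β
  · obtain ⟨ι, _, e, he⟩ := coords_of (linearIndepOn_id_pair hα h)
    obtain ⟨i, hi⟩ := he α (by simp)
    obtain ⟨j, hj⟩ := he β (by simp)
    exact ⟨ι, inferInstance, e, i, j, fun v hv => (hi v).trans hv, fun v hv => (hj v).trans hv⟩
  · push Not at h
    obtain ⟨c, rfl⟩ := h
    obtain ⟨ι, _, e, he⟩ := coords_of (s := {α}) (LinearIndepOn.singleton hα)
    obtain ⟨i, hi⟩ := he α rfl
    refine ⟨ι, inferInstance, e, i, i, fun v hv => (hi v).trans hv, fun v hv => (hi v).trans ?_⟩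
    exact (mul_eq_zero.1 hv).resolve_left (left_ne_zero_of_smul hβ)

end

variable {n : ℕ}

theorem sharp (B : LinearMap.BilinForm ℝ (EV n)) (V : Submodule ℝ (EV n))
    (hV : finrank ℝ (LinearMap.range (B.restrict V)) = 1) {d : ℝ≥0∞} (hd : d < finrank ℝ V) :
    ∃ E : Set (EV n), IsCompact E ∧ d < dimH E ∧
      ∀ x ∈ E, ∀ y ∈ E, ∀ z ∈ E, B (x - y) (z - y) = 0 → x = y ∨ y = z := by
  have : Module.Free ℝ (LinearMap.range (B.restrict V)) :=
    Module.Free.of_divisionRing ℝ (LinearMap.range (B.restrict V))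
  obtain ⟨⟨β, v1, hv1⟩, hβ, hsp⟩ :=
    (finrank_eq_one_iff' (K := ℝ) (V := LinearMap.range (B.restrict V))).1 hV
  have hβ0 : β ≠ 0 := fun h => hβ (Subtype.ext h)
  obtain ⟨v0, hv0⟩ : ∃ v0, β v0 ≠ 0 := by
    by_contra h
    push Not at h
    exact hβ0 (LinearMap.ext h)
  have hα0 : (B.restrict V).flip v0 ≠ 0 := fun h => hv0 (by
    rw [← hv1]; exact LinearMap.congr_fun h v1)
  obtain ⟨ι, _, e, i, j, hi, hj⟩ := coords hα0 hβ0
  have hc : Fintype.card ι = finrank ℝ V := by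
    rw [e.finrank_eq, Module.finrank_fintype_fun_eq_card]
  obtain ⟨E, hE, hdE, hinj⟩ := cube ι (d := d) (by rwa [hc])
  set e' := e.toContinuousLinearEquiv with he'
  refine ⟨Subtype.val '' (e'.symm '' E), (hE.image e'.symm.continuous).image continuous_subtype_val,
    by rwa [isometry_subtype_coe.dimH_image, ContinuousLinearEquiv.dimH_image], ?_⟩
  rintro _ ⟨_, ⟨x, hx, rfl⟩, rfl⟩ _ ⟨_, ⟨y, hy, rfl⟩, rfl⟩ _ ⟨_, ⟨z, hz, rfl⟩, rfl⟩ h
  obtain ⟨c, hc⟩ := hsp ⟨B.restrict V (e.symm x - e.symm y), _, rfl⟩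
  have h1 : ∀ w, c * β w = B.restrict V (e.symm x - e.symm y) w := fun w =>
    LinearMap.congr_fun (congrArg Subtype.val hc) w
  rcases mul_eq_zero.1 ((h1 (e.symm z - e.symm y)).trans h) with h2 | h2
  · have h3 := hi (e.symm x - e.symm y) ((h1 v0).symm.trans (by rw [h2, zero_mul]))
    rw [map_sub, e.apply_symm_apply, e.apply_symm_apply, Pi.sub_apply, sub_eq_zero] at h3
    exact Or.inl (by rw [hinj i x hx y hy h3])
  · have h3 := hj _ h2
    rw [map_sub, e.apply_symm_apply, e.apply_symm_apply, Pi.sub_apply, sub_eq_zero] at h3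
    exact Or.inr (by rw [hinj j z hz y hy h3])

theorem forms (B : LinearMap.BilinForm ℝ (EV n)) (c : ℝ≥0∞)
    (hc : 2 * (n : ℝ≥0∞) ≤ 2 * c + finrank ℝ (LinearMap.range B)) :
    (∀ E F : Set (EV n), AnalyticSet E → AnalyticSet F → c < dimH E →
      2 * (n : ℝ≥0∞) < dimH E + dimH F + finrank ℝ (LinearMap.range B) →
      ∃ x ∈ F, ∃ y ∈ E, ∃ z ∈ E, x ≠ y ∧ y ≠ z ∧ x ≠ z ∧ B (x - y) (z - y) = 0) ↔
    ∀ V : Submodule ℝ (EV n), finrank ℝ (LinearMap.range (B.restrict V)) = 1 →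
      (finrank ℝ V : ℝ≥0∞) ≤ c := by
  have key : ∀ E : Set (EV n), c < dimH E →
      2 * (n : ℝ≥0∞) < 2 * dimH E + finrank ℝ (LinearMap.range B) := fun E h =>
    hc.trans_lt (ENNReal.add_lt_add_right (ENNReal.natCast_ne_top _)
      (ENNReal.mul_lt_mul_right (by norm_num) (by norm_num) h))
  constructor
  · intro h V hV
    by_contra h1
    obtain ⟨E, hE, h2, h3⟩ := sharp B V hV (not_le.1 h1)
    have hA := hE.isClosed.analyticSet
    obtain ⟨x, hx, y, hy, z, hz, k1, k2, -, k3⟩ := h E E hA hA h2 (by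
      rw [← two_mul]; exact key E h2)
    exact (h3 x hx y hy z hz k3).elim k1 k2
  · intro h E F hE hF h1 h2
    exact final B hE hF (key E h1) h2 fun V hV => (h V hV).trans_lt h1

/-- The case of the inner product. -/
theorem inner_case (hn : 2 ≤ n) (E F : Set (EV n)) (hE : AnalyticSet E) (hF : AnalyticSet F)
    (h1 : (n : ℝ≥0∞) / 2 < dimH E) (h2 : (n : ℝ≥0∞) < dimH E + dimH F) :
    ∃ x ∈ F, ∃ y ∈ E, ∃ z ∈ E, x ≠ y ∧ y ≠ z ∧ x ≠ z ∧ inner ℝ (x - y) (z - y) = 0 := by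
  have hrk : ∀ V : Submodule ℝ (EV n), finrank ℝ (LinearMap.range
      (LinearMap.BilinForm.restrict (innerₗ (EV n)) V)) = finrank ℝ V := fun V =>
    LinearMap.finrank_range_of_inj ((injective_iff_map_eq_zero _).2 fun v hv =>
      Subtype.ext (inner_self_eq_zero (𝕜 := ℝ).1 (LinearMap.congr_fun hv v)))
  have hr : finrank ℝ (LinearMap.range (innerₗ (EV n))) = n :=
    (LinearMap.finrank_range_of_inj ((injective_iff_map_eq_zero _).2 fun v hv =>
      inner_self_eq_zero (𝕜 := ℝ).1 (LinearMap.congr_fun hv v))).trans finrank_euclideanSpace_fin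
  refine (forms (innerₗ (EV n)) ((n : ℝ≥0∞) / 2) ?_).2 (fun V hV => ?_) E F hE hF h1 ?_
  · rw [hr, ENNReal.mul_div_cancel (by norm_num) (by norm_num), two_mul]
  · rw [hrk] at hV
    rw [hV, ENNReal.le_div_iff_mul_le (by norm_num) (by norm_num)]
    exact_mod_cast hn
  · rw [hr, two_mul]
    exact ENNReal.add_lt_add_right (ENNReal.natCast_ne_top _) h2

end Pool.Agent.P.MP_bf60a1_an.BF
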