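import Pool.Agent.P.MP_bf60a1_an.TS.Final
import Pool.Agent.P.MP_bf60a1_an.BF.Key

/-! Thin tubes from one measure towards another. -/

namespace Pool.Agent.P.MP_bf60a1_an.BF

open MeasureTheory Metric Set RA TS
open scoped ENNReal

variable {n : ℕ}

/-- thin tubes of exponent `c` from the points of `μ` towards `ν` -/
def Thin (μ ν : Measure (EV n)) (c : ℝ) : Prop :=
  ∃ (G : Set (EV n × EV n)) (C : ℝ), MeasurableSet G ∧ (μ.prod ν) G ≠ 0 ∧
    ∀ x y, (x, y) ∈ G → ∀ δ : ℝ, 0 < δ →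
      ν {z | (x, z) ∈ G ∧ ∃ t : ℝ, dist z (x + t • (y - x)) < δ} ≤ ENNReal.ofReal (C * δ ^ c)

variable (μ ν : Measure (EV n)) [IsProbabilityMeasure μ] [IsProbabilityMeasure ν]
  {K L : Set (EV n)}

/-- the second measure charges a flat which the first one does not -/
theorem thinB (hK : IsCompact K) (hL : IsCompact L) (hμK : μ Kᶜ = 0) (hνL : ν Lᶜ = 0) {t : ℝ}
    (hF' : Fr ν t) (V : AffineSubspace ℝ (EV n)) (hμV : μ V = 0) (hνV : ν V ≠ 0) :
    Thin μ ν t := by
  have hVc : IsClosed (V : Set (EV n)) := V.closed_of_finiteDimensional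
  have hne : (V : Set (EV n)).Nonempty := nonempty_of_measure_ne_zero hνV
  obtain ⟨d, hd, hX⟩ : ∃ d : ℝ, 0 < d ∧ μ ({x | d ≤ infDist x V} ∩ K) ≠ 0 := by
    by_contra h
    push Not at h
    have h1 : μ (⋃ m : ℕ, {x | 1 / ((m : ℝ) + 1) ≤ infDist x V} ∩ K) = 0 :=
      measure_iUnion_null fun m => h _ (by positivity)
    have h2 := measure_union_null (measure_union_null h1 hμV) hμK
    refine one_ne_zero ((measure_univ (μ := μ)).symm.trans (measure_mono_null (fun x _ => ?_) h2))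
    by_cases hx : x ∈ K
    · by_cases hx' : x ∈ (V : Set (EV n))
      · exact Or.inl (Or.inr hx')
      · obtain ⟨m, hm⟩ := exists_nat_one_div_lt ((hVc.notMem_iff_infDist_pos hne).1 hx')
        exact Or.inl (Or.inl (mem_iUnion.2 ⟨m, hm.le, hx⟩))
    · exact Or.inr hx
  obtain ⟨R, hR0, hR⟩ := (hK.union hL).isBounded.subset_ball_lt 0 0
  obtain ⟨C, hC, hF'⟩ := hF'
  refine ⟨({x | d ≤ infDist x V} ∩ K) ×ˢ ((V : Set (EV n)) ∩ L), C * (1 + 2 * R / d) ^ t,
    (((isClosed_le continuous_const (continuous_infDist_pt _)).inter hK.isClosed).prod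
      (hVc.inter hL.isClosed)).measurableSet, ?_, ?_⟩
  · rw [Measure.prod_prod]
    exact mul_ne_zero hX (by rwa [measure_inter_conull hνL])
  · rintro x y ⟨⟨hx, hxK⟩, hy, hyL⟩ δ hδ
    rw [mul_assoc, ← Real.mul_rpow (by positivity) hδ.le]
    refine le_trans (measure_mono ?_) (hF' y _ (by positivity))
    rintro z ⟨⟨-, hz, -⟩, τ, hτ⟩
    have h1 : |1 - τ| * d ≤ δ := by
      rcases eq_or_ne (1 - τ) 0 with h | h
      · rw [h, abs_zero, zero_mul]
        exact hδ.le
      have h2 : d ≤ dist x ((1 - τ)⁻¹ • (z - y) + y) :=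
        le_trans hx (infDist_le_dist_of_mem (V.smul_vsub_vadd_mem _ hz hy hy))
      have h3 : (1 - τ) • (x - ((1 - τ)⁻¹ • (z - y) + y)) = x + τ • (y - x) - z := by
        rw [smul_sub, smul_add, smul_smul, mul_inv_cancel₀ h]
        module
      rw [dist_comm, dist_eq_norm, ← h3, norm_smul, Real.norm_eq_abs, ← dist_eq_norm] at hτ
      exact (mul_le_mul_of_nonneg_left h2 (abs_nonneg _)).trans hτ.le
    have h4 : dist (x + τ • (y - x)) y = |1 - τ| * dist x y := by
      rw [dist_eq_norm, dist_eq_norm, ← Real.norm_eq_abs, ← norm_smul]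
      congr 1
      module
    have h5 : dist x y ≤ 2 * R := by
      have a := mem_ball.1 (hR (Or.inl hxK))
      have b := mem_ball.1 (hR (Or.inr hyL))
      linarith [dist_triangle_right x y 0]
    have h6 : |1 - τ| * dist x y ≤ δ / d * (2 * R) :=
      mul_le_mul ((le_div_iff₀ hd).2 h1) h5 dist_nonneg (by positivity)
    have h7 := dist_triangle z (x + τ • (y - x)) y
    rw [mem_ball, show (1 + 2 * R / d) * δ = δ + δ / d * (2 * R) by ring]
    linarith

/-- both measures vanish on flats of dimension at most `k` -/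
theorem thinC (hK : IsCompact K) (hL : IsCompact L) (hμK : μ Kᶜ = 0) (hνL : ν Lᶜ = 0)
    {s t p : ℝ} {k : ℕ} (hk : 1 ≤ k) (hF : Fr μ s) (hF' : Fr ν t) (hks : (k : ℝ) - 1 < min s t)
    (hp0 : 0 ≤ p) (hp1 : p < min s t) (hp2 : p < k)
    (hμ : ∀ V : AffineSubspace ℝ (EV n), Module.finrank ℝ V.direction ≤ k → μ V = 0)
    (hν : ∀ V : AffineSubspace ℝ (EV n), Module.finrank ℝ V.direction ≤ k → ν V = 0) :
    Thin μ ν p := by
  set lam : Measure (EV n) := (2⁻¹ : ℝ≥0∞) • (μ + ν) with hlam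
  have hl : ∀ A, lam A = 2⁻¹ * (μ A + ν A) := fun A => by
    rw [hlam, Measure.smul_apply, Measure.add_apply, smul_eq_mul]
  have h2 : (μ + ν) = (2 : ℝ≥0∞) • lam := by
    rw [hlam, smul_smul, ENNReal.mul_inv_cancel (by norm_num) (by norm_num), one_smul]
  have : IsProbabilityMeasure lam := ⟨by
    rw [hl, measure_univ, measure_univ, one_add_one_eq_two,
      ENNReal.inv_mul_cancel (by norm_num) (by norm_num)]⟩
  obtain ⟨R, -, hR⟩ := (hK.union hL).isBounded.subset_ball_lt 0 0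
  obtain ⟨C, hC, hF₁⟩ := hF
  obtain ⟨C₁, -, hC₁⟩ := fr_of_small (μ := μ) (s' := min s t) (by linarith)
    ((min_le_left _ _).trans (le_max_left _ _)) hC fun x r hr _ => hF₁ x r hr
  obtain ⟨C', hC', hF₂⟩ := hF'
  obtain ⟨C₂, -, hC₂⟩ := fr_of_small (μ := ν) (s' := min s t) (by linarith)
    ((min_le_right _ _).trans (le_max_left _ _)) hC' fun x r hr _ => hF₂ x r hr
  obtain ⟨G, C₃, hG, hG0, hth⟩ := thin_main2 (k := k) hk lam (R := R)
    (s := min s t) (C := max C₁ C₂) (by
      rw [hl, measure_mono_null (compl_subset_compl.2 (subset_union_left.trans hR)) hμK,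
        measure_mono_null (compl_subset_compl.2 (subset_union_right.trans hR)) hνL]
      simp) hks (fun x r hr => by
      have a : μ (ball x r) ≤ ENNReal.ofReal (max C₁ C₂ * r ^ min s t) :=
        (hC₁ x r hr).trans (ENNReal.ofReal_le_ofReal
          (mul_le_mul_of_nonneg_right (le_max_left _ _) (by positivity)))
      have b : ν (ball x r) ≤ ENNReal.ofReal (max C₁ C₂ * r ^ min s t) :=
        (hC₂ x r hr).trans (ENNReal.ofReal_le_ofReal
          (mul_le_mul_of_nonneg_right (le_max_right _ _) (by positivity)))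
      rw [hl]
      refine (mul_le_mul_right (add_le_add a b) _).trans_eq ?_
      rw [← two_mul, ← mul_assoc, ENNReal.inv_mul_cancel (by norm_num) (by norm_num), one_mul])
    (fun V hV => by rw [hl, hμ V hV, hν V hV]; simp) (p := p) hp0 hp1 hp2
  refine ⟨G, 2 * C₃, hG, fun h0 => ?_, fun x y hxy δ hδ => ?_⟩
  · have a : (μ.prod ν) Gᶜ ≤ ((μ + ν).prod (μ + ν)) Gᶜ :=
      Measure.prod_mono (Measure.le_add_right le_rfl) (Measure.le_add_left le_rfl) _
    rw [h2, Measure.prod_smul_left, Measure.prod_smul_right, Measure.smul_apply,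
      Measure.smul_apply, smul_eq_mul, smul_eq_mul, prob_compl_eq_one_iff hG |>.2 h0] at a
    have b := a.trans (mul_le_mul_right (mul_le_mul_right hG0 _) _)
    rw [← ENNReal.ofReal_ofNat 2, ← ENNReal.ofReal_mul (by norm_num),
      ← ENNReal.ofReal_mul (by norm_num), ENNReal.one_le_ofReal] at b
    norm_num at b
  · refine (measure_mono fun z hz => hz.2).trans
      ((Measure.le_add_left (ν' := μ) le_rfl _).trans ?_)
    rw [h2, Measure.smul_apply, smul_eq_mul, mul_assoc, ENNReal.ofReal_mul (by norm_num),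
      ENNReal.ofReal_ofNat]
    exact mul_le_mul_right (hth x y hxy δ hδ) _

/-- The reduced statement: two maps from a parameter space. -/
theorem red {X : Type*} [TopologicalSpace X] [MeasurableSpace X] [OpensMeasurableSpace X]
    (μ : Measure X) [IsProbabilityMeasure μ] {K : Set X} (hK : IsCompact K) (hKm : μ Kᶜ = 0)
    (hL : IsCompact L) (hνL : ν Lᶜ = 0) {P T : X → EV n} (hP : Continuous P) (hT : Continuous T)
    {a b t : ℝ} (ha : 1 < a) (han : a ≤ n) (hab : (n : ℝ) < a + b) (hat : (n : ℝ) < a + t)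
    (hFa : Fr (μ.map P) a) (hFb : Fr (μ.map T) b) (hFt : Fr ν t)
    (hnull : ∀ V : AffineSubspace ℝ (EV n), (Module.finrank ℝ V.direction : ℝ) ≤ n - a + 1 →
      μ.map T V = 0) :
    ∃ y ∈ L, ∃ x ∈ K, ∃ z ∈ K, y ≠ T x ∧ y ≠ T z ∧ P x ≠ P z ∧
      inner ℝ (y - T x) (P z - P x) = 0 := by
  have : IsProbabilityMeasure (μ.map T) :=
    Measure.isProbabilityMeasure_map hT.measurable.aemeasurable
  have hK' : μ.map T (T '' K)ᶜ = 0 := by
    rw [Measure.map_apply hT.measurable (hK.image hT).measurableSet.compl]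
    exact measure_mono_null (fun z hz h => hz ⟨z, h, rfl⟩) hKm
  have k1 := Nat.floor_le (show 0 ≤ (n : ℝ) - a by linarith)
  have k2 := Nat.lt_floor_add_one ((n : ℝ) - a)
  have hu : (n : ℝ) - a < min b t := lt_min (by linarith) (by linarith)
  have hμ : ∀ V : AffineSubspace ℝ (EV n), Module.finrank ℝ V.direction ≤ ⌊(n : ℝ) - a⌋₊ + 1 →
      μ.map T V = 0 := fun V hV => hnull V (by
    have : (Module.finrank ℝ V.direction : ℝ) ≤ ⌊(n : ℝ) - a⌋₊ + 1 := by exact_mod_cast hV
    linarith)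
  obtain ⟨c, hc, G, C'', hG, hpos, hthin⟩ : ∃ c, (n : ℝ) - a < c ∧ Thin (μ.map T) ν c := by
    by_cases hν : ∀ V : AffineSubspace ℝ (EV n),
        Module.finrank ℝ V.direction ≤ ⌊(n : ℝ) - a⌋₊ + 1 → ν V = 0
    · obtain ⟨p, hp1, hp2⟩ := exists_between (lt_min hu k2)
      rw [lt_min_iff] at hp2
      exact ⟨p, hp1, thinC _ ν (hK.image hT) hL hK' hνL (k := ⌊(n : ℝ) - a⌋₊ + 1) (by omega) hFb
        hFt (by push_cast; linarith) (by linarith) hp2.1 (by push_cast; exact hp2.2) hμ hν⟩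
    · push Not at hν
      obtain ⟨V, h1, h2⟩ := hν
      exact ⟨t, by linarith, thinB _ ν (hK.image hT) hL hK' hνL hFt V (hμ V h1) h2⟩
  obtain ⟨C, -, hF⟩ := hFa
  obtain ⟨C', -, hF'⟩ := hFb
  exact key4 μ ν hK hL hKm hνL hP hT (c := c) ha (by linarith)
    (by rw [finrank_euclideanSpace_fin]; linarith) hF hF' hG hpos hthin

end Pool.Agent.P.MP_bf60a1_an.BF
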